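import Mathlib
import Pool.Agent.KS6_87.CZDS

/-!
# Rapidly decreasing sequences are CZDS, and the threshold phenomenon for exp(-a k^p)
-/

set_option autoImplicit false

namespace Pool.Agent.Results.MP_561634_an.RapidDecay

open Polynomial Finset Filter Topology

/-- the number of nonreal zeros of a real polynomial, counted with multiplicity -/
noncomputable def Zc (f : ℝ[X]) : ℕ :=
  ((f.map (algebraMap ℝ ℂ)).roots.filter (fun z : ℂ => z.im ≠ 0)).card

/-- the polynomial `Σ γ_k a_k x^k` for `f = Σ a_k x^k` -/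
noncomputable def act (γ : ℕ → ℝ) (f : ℝ[X]) : ℝ[X] :=
  ∑ n ∈ f.support, C (γ n * f.coeff n) * X ^ n

/-- complex zero decreasing sequences -/
def IsCZDS (γ : ℕ → ℝ) : Prop := ∀ f : ℝ[X], Zc (act γ f) ≤ Zc f

/-- multiplier sequences: hyperbolic polynomials go to hyperbolic polynomials -/
def IsMultiplier (γ : ℕ → ℝ) : Prop :=
  ∀ f : ℝ[X], f ≠ 0 → Zc f = 0 → act γ f ≠ 0 ∧ Zc (act γ f) = 0

lemma act_coeff (γ : ℕ → ℝ) (f : ℝ[X]) (k : ℕ) : (act γ f).coeff k = γ k * f.coeff k := by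
  simp only [act, finsetSum_coeff, coeff_C_mul_X_pow, Finset.sum_ite_eq, mem_support_iff]
  split_ifs with h
  · rfl
  · simp [not_not.1 h]

lemma czds_of (γ : ℕ → ℝ) (h : ∀ k, 0 < γ k)
    (hK : ∀ k, 220 * (γ k * γ (k + 2)) ≤ γ (k + 1) ^ 2) : IsCZDS γ := fun f =>
  KS6_87.CZDS.czds γ h (fun k => by rw [mul_assoc]; exact hK k) f _ (act_coeff γ f)

/-- second differences of `x ^ p` are smallest at `0` -/
lemma sd {p : ℝ} (hp : 2 ≤ p) {x : ℝ} (hx : 0 ≤ x) :
    (2 : ℝ) ^ p - 2 ≤ x ^ p + (x + 2) ^ p - 2 * (x + 1) ^ p := by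
  have hm : MonotoneOn (fun x : ℝ => x ^ p + (x + 2) ^ p - 2 * (x + 1) ^ p) (Set.Ici 0) := by
    have hd : ∀ y : ℝ, 0 < y → HasDerivAt (fun x : ℝ => x ^ p + (x + 2) ^ p - 2 * (x + 1) ^ p)
        (p * (y ^ (p - 1) + (y + 2) ^ (p - 1) - 2 * (y + 1) ^ (p - 1))) y := by
      intro y hy
      have h1 := Real.hasDerivAt_rpow_const (x := y) (p := p) (Or.inl hy.ne')
      have h2 := ((hasDerivAt_id y).add_const 2).rpow_const (p := p)
        (Or.inl (by simp only [id]; positivity))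
      have h3 := ((hasDerivAt_id y).add_const 1).rpow_const (p := p)
        (Or.inl (by simp only [id]; positivity))
      refine ((h1.add h2).sub (h3.const_mul 2)).congr_deriv ?_
      simp only [id]; ring
    refine monotoneOn_of_deriv_nonneg (convex_Ici 0) ?_ ?_ ?_
    · have : 0 ≤ p := by linarith
      have c : Continuous fun x : ℝ => x ^ p := Real.continuous_rpow_const this
      exact (((c.comp continuous_id).add (c.comp (continuous_id.add continuous_const))).sub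
        (continuous_const.mul (c.comp (continuous_id.add continuous_const)))).continuousOn
    · rw [interior_Ici]
      exact fun y hy => (hd y hy).differentiableAt.differentiableWithinAt
    · rw [interior_Ici]
      intro y hy
      have hy : 0 < y := hy
      rw [(hd y hy).deriv]
      have hc := (convexOn_rpow (show 1 ≤ p - 1 by linarith)).2
        (Set.mem_Ici.2 hy.le) (Set.mem_Ici.2 (show 0 ≤ y + 2 by linarith))
        (show (0 : ℝ) ≤ 1 / 2 by norm_num) (show (0 : ℝ) ≤ 1 / 2 by norm_num) (by norm_num)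
      simp only [smul_eq_mul] at hc
      rw [show 1 / 2 * y + 1 / 2 * (y + 2) = y + 1 by ring] at hc
      exact mul_nonneg (by linarith) (by linarith)
  have := hm (Set.mem_Ici.2 le_rfl) (Set.mem_Ici.2 hx) hx
  simp only [zero_add] at this
  rw [Real.zero_rpow (by linarith), Real.one_rpow] at this
  linarith

lemma log220 : Real.log 220 ≤ 6 := by
  rw [Real.log_le_iff_le_exp (by norm_num)]
  have := Real.exp_one_gt_d9
  calc (220 : ℝ) ≤ 2.7 ^ 6 := by norm_num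
    _ ≤ Real.exp 1 ^ 6 := by gcongr; linarith
    _ = Real.exp 6 := by rw [← Real.exp_nat_mul]; norm_num

lemma exp_czds {p a : ℝ} (hp : 2 ≤ p) (h : Real.log 220 ≤ a * (2 ^ p - 2)) :
    IsCZDS fun k => Real.exp (-(a * (k : ℝ) ^ p)) := by
  have h2 : (4 : ℝ) ≤ 2 ^ p := by
    have := Real.rpow_le_rpow_of_exponent_le (x := 2) (by norm_num) hp
    rwa [Real.rpow_two, show (2 : ℝ) ^ 2 = 4 by norm_num] at this
  have ha : 0 < a := by
    have h0 : 0 < Real.log 220 := Real.log_pos (by norm_num)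
    by_contra hc
    nlinarith [not_lt.1 hc]
  refine czds_of _ (fun _ => Real.exp_pos _) fun k => ?_
  have := mul_le_mul_of_nonneg_left (sd hp (Nat.cast_nonneg k)) ha.le
  have e : (220 : ℝ) = Real.exp (Real.log 220) := (Real.exp_log (by norm_num)).symm
  rw [e, ← Real.exp_add, ← Real.exp_add, ← Real.exp_nat_mul]
  refine Real.exp_le_exp.2 ?_
  push_cast
  nlinarith

/-- the test polynomials -/
noncomputable def tst (m : ℕ) : ℝ[X] := X ^ m * (X + 1) ^ 3

lemma Zc_zero_iff (f : ℝ[X]) : Zc f = 0 ↔ f.roots.card = f.natDegree := by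
  have := KS6_87.CZDS.nonreal f
  unfold Zc
  omega

lemma tst_roots (m : ℕ) : Zc (tst m) = 0 := by
  rw [Zc_zero_iff]
  have e : tst m = X ^ m * (X - C (-1)) ^ 3 := by simp [tst]
  have h1 : (X ^ m * (X - C (-1 : ℝ)) ^ 3) ≠ 0 :=
    mul_ne_zero (pow_ne_zero _ X_ne_zero) (pow_ne_zero _ (X_sub_C_ne_zero _))
  rw [e, roots_mul h1, roots_pow, roots_pow, roots_X, roots_X_sub_C, Multiset.card_add,
    Multiset.card_nsmul, Multiset.card_nsmul, Multiset.card_singleton, Multiset.card_singleton,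
    natDegree_mul (pow_ne_zero _ X_ne_zero) (pow_ne_zero _ (X_sub_C_ne_zero _)), natDegree_pow,
    natDegree_pow, natDegree_X, natDegree_X_sub_C]

lemma act_tst (γ : ℕ → ℝ) (m : ℕ) : act γ (tst m) =
    X ^ m * (Cubic.mk (γ (m + 3)) (3 * γ (m + 2)) (3 * γ (m + 1)) (γ m)).toPoly := by
  ext k
  rw [act_coeff, tst, coeff_X_pow_mul', coeff_X_pow_mul']
  split_ifs with h
  · obtain ⟨j, rfl⟩ := Nat.exists_eq_add_of_le h
    rw [Nat.add_sub_cancel_left]
    have e : ((X : ℝ[X]) + 1) ^ 3 = (Cubic.mk 1 3 3 1).toPoly := by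
      simp only [Cubic.toPoly, map_one, one_mul]
      rw [show (C (3 : ℝ)) = (3 : ℝ[X]) from rfl]
      ring
    rw [e]
    rcases j with _ | _ | _ | _ | j
    · simp [Cubic.coeff_eq_d]
    · simp [Cubic.coeff_eq_c]; ring
    · simp [Cubic.coeff_eq_b]; ring
    · simp [Cubic.coeff_eq_a]
    · rw [Cubic.coeff_eq_zero (by omega), Cubic.coeff_eq_zero (by omega), mul_zero]
  · simp

/-- the discriminant inequality for multiplier sequences -/
lemma disc {γ : ℕ → ℝ} (h0 : ∀ k, 0 < γ k) (h : IsMultiplier γ) (m : ℕ) :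
    γ (m + 3) ^ 2 * γ m ^ 2 - 6 * (γ m * γ (m + 1) * γ (m + 2) * γ (m + 3)) +
      4 * (γ (m + 3) * γ (m + 1) ^ 3) + 4 * (γ (m + 2) ^ 3 * γ m) -
      3 * (γ (m + 1) ^ 2 * γ (m + 2) ^ 2) ≤ 0 := by
  set P : Cubic ℝ := ⟨γ (m + 3), 3 * γ (m + 2), 3 * γ (m + 1), γ m⟩ with hP
  have ha : P.a ≠ 0 := (h0 _).ne'
  have hne : P.toPoly ≠ 0 := Cubic.ne_zero_of_a_ne_zero ha
  have h1 := (h (tst m) (mul_ne_zero (pow_ne_zero _ X_ne_zero)
    (pow_ne_zero _ (by simpa using X_sub_C_ne_zero (-1 : ℝ)))) (tst_roots m)).2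
  rw [Zc_zero_iff, act_tst, roots_mul (mul_ne_zero (pow_ne_zero _ X_ne_zero) hne), roots_pow,
    roots_X, Multiset.card_add, Multiset.card_nsmul, Multiset.card_singleton,
    natDegree_mul (pow_ne_zero _ X_ne_zero) hne, natDegree_pow, natDegree_X,
    Cubic.natDegree_of_a_ne_zero ha] at h1
  obtain ⟨x, y, z, h2⟩ := Multiset.card_eq_three.1 (show P.toPoly.roots.card = 3 by omega)
  have h3 := Cubic.discr_eq_prod_three_roots (φ := RingHom.id ℝ) (P := P) ha (x := x) (y := y)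
    (z := z) (by
      rw [← h2]
      congr 1)
  have h4 : 0 ≤ P.discr := by
    have : (RingHom.id ℝ) P.discr = P.discr := rfl
    rw [← this, h3]
    exact sq_nonneg _
  simp only [Cubic.discr, hP] at h4
  nlinarith

lemma key {φ : ℕ → ℝ} {a : ℝ} (h : IsMultiplier fun k => Real.exp (-(a * φ k))) (m : ℕ) :
    ((1 - Real.exp (-(a * (φ (m + 3) - 3 * φ (m + 1) + 2 * φ m)))) -
      3 * (1 - Real.exp (-(a * (φ (m + 2) - 2 * φ (m + 1) + φ m))))) ^ 2 ≤
      4 * (1 - Real.exp (-(a * (φ (m + 2) - 2 * φ (m + 1) + φ m)))) ^ 3 := by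
  have h1 := disc (fun _ => Real.exp_pos _) h m
  set A := Real.exp (-(a * φ (m + 3)))
  set B := Real.exp (-(a * φ (m + 2)))
  set c := Real.exp (-(a * φ (m + 1))) with hc
  set d := Real.exp (-(a * φ m))
  set v := Real.exp (-(a * (φ (m + 2) - 2 * φ (m + 1) + φ m)))
  set w := Real.exp (-(a * (φ (m + 3) - 3 * φ (m + 1) + 2 * φ m)))
  have e1 : B * d = v * c ^ 2 := by
    simp only [B, d, v, c]
    rw [← Real.exp_nat_mul, ← Real.exp_add, ← Real.exp_add]
    congr 1; push_cast; ring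
  have e2 : A * d ^ 2 = w * c ^ 3 := by
    simp only [A, d, w, c]
    rw [← Real.exp_nat_mul, ← Real.exp_nat_mul, ← Real.exp_add, ← Real.exp_add]
    congr 1; push_cast; ring
  have c0 : 0 < c := Real.exp_pos _
  have d0 : 0 < d := Real.exp_pos _
  have e3 : d ^ 2 * (A ^ 2 * d ^ 2 - 6 * (d * c * B * A) + 4 * (A * c ^ 3) + 4 * (B ^ 3 * d) -
      3 * (c ^ 2 * B ^ 2)) = c ^ 6 * (w ^ 2 - 6 * (v * w) + 4 * w + 4 * v ^ 3 - 3 * v ^ 2) := by
    have : d ^ 2 * (A ^ 2 * d ^ 2 - 6 * (d * c * B * A) + 4 * (A * c ^ 3) + 4 * (B ^ 3 * d) -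
      3 * (c ^ 2 * B ^ 2)) = (A * d ^ 2) ^ 2 - 6 * (c * (B * d) * (A * d ^ 2)) +
        4 * ((A * d ^ 2) * c ^ 3) + 4 * (B * d) ^ 3 - 3 * (c ^ 2 * (B * d) ^ 2) := by ring
    rw [this, e1, e2]; ring
  have e4 : w ^ 2 - 6 * (v * w) + 4 * w + 4 * v ^ 3 - 3 * v ^ 2 ≤ 0 := by
    by_contra hcon
    have := mul_pos (pow_pos c0 6) (not_le.1 hcon)
    rw [← e3] at this
    nlinarith [mul_nonneg (sq_nonneg d) (neg_nonneg.2 h1)]
  nlinarith

lemma lim1 (B : ℝ) : Tendsto (fun a : ℝ => (1 - Real.exp (-(a * B))) / a) (𝓝[>] 0) (𝓝 B) := by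
  have h : HasDerivAt (fun a : ℝ => 1 - Real.exp (-(a * B))) B 0 := by
    have h1 : HasDerivAt (fun a : ℝ => -(a * B)) (-B) 0 := by
      have := ((hasDerivAt_id (0 : ℝ)).mul_const B).neg
      rw [one_mul] at this
      exact this
    have h2 := (h1.exp).const_sub 1
    simpa using h2
  have := (hasDerivAt_iff_tendsto_slope.1 h).mono_left
    (nhdsWithin_mono (0 : ℝ) (fun x (hx : 0 < x) => hx.ne'))
  refine this.congr fun a => ?_
  simp [slope_def_field]

lemma classify {φ : ℕ → ℝ}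
    (h : ∀ ε > 0, ∃ a, 0 < a ∧ a < ε ∧ IsMultiplier fun k => Real.exp (-(a * φ k))) :
    ∃ b c d : ℝ, 0 ≤ b ∧ ∀ k : ℕ, φ k = b * (k : ℝ) ^ 2 + c * k + d := by
  have hf : ∃ᶠ a : ℝ in 𝓝[>] 0, 0 < a ∧ IsMultiplier fun k => Real.exp (-(a * φ k)) := by
    rw [frequently_nhdsWithin_iff]
    rw [Metric.nhds_basis_ball.frequently_iff]
    intro ε hε
    obtain ⟨a, h1, h2, h3⟩ := h ε hε
    exact ⟨a, by simp [abs_of_pos h1, h2], ⟨h1, h3⟩, h1⟩
  have T : ∀ m, (φ (m + 3) - 3 * φ (m + 1) + 2 * φ m) - 3 * (φ (m + 2) - 2 * φ (m + 1) + φ m) = 0 := by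
    intro m
    set B := φ (m + 2) - 2 * φ (m + 1) + φ m with hB
    set A := φ (m + 3) - 3 * φ (m + 1) + 2 * φ m with hA
    have l1 : Tendsto (fun a : ℝ => ((1 - Real.exp (-(a * A))) / a -
        3 * ((1 - Real.exp (-(a * B))) / a)) ^ 2 - 4 * ((1 - Real.exp (-(a * B))) / a) ^ 3 * a)
        (𝓝[>] 0) (𝓝 ((A - 3 * B) ^ 2 - 4 * B ^ 3 * 0)) :=
      (((lim1 A).sub ((lim1 B).const_mul 3)).pow 2).sub ((((lim1 B).pow 3).const_mul 4).mul
        (tendsto_nhdsWithin_of_tendsto_nhds tendsto_id))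
    have l2 := le_of_tendsto_of_frequently l1 (b := 0) (hf.mono fun a ⟨ha, hm⟩ => by
      have := key hm m
      rw [← hB, ← hA] at this
      have e : ((1 - Real.exp (-(a * A))) / a - 3 * ((1 - Real.exp (-(a * B))) / a)) ^ 2 -
          4 * ((1 - Real.exp (-(a * B))) / a) ^ 3 * a =
          (((1 - Real.exp (-(a * A))) - 3 * (1 - Real.exp (-(a * B)))) ^ 2 -
            4 * (1 - Real.exp (-(a * B))) ^ 3) / a ^ 2 := by
        field_simp
      rw [e]
      exact div_nonpos_of_nonpos_of_nonneg (by linarith) (by positivity))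
    have : (A - 3 * B) ^ 2 ≤ 0 := by linarith
    exact pow_eq_zero_iff (two_ne_zero) |>.1 (le_antisymm this (sq_nonneg _))
  obtain ⟨b, hb⟩ : ∃ b, 2 * b = φ 2 - 2 * φ 1 + φ 0 := ⟨(φ 2 - 2 * φ 1 + φ 0) / 2, by ring⟩
  refine ⟨b, φ 1 - φ 0 - b, φ 0, ?_, ?_⟩
  · obtain ⟨a, h1, -, h3⟩ := h 1 one_pos
    have := key h3 0
    simp only [zero_add] at this
    rw [← hb] at this
    by_contra hc
    have h4 : 1 < Real.exp (-(a * (2 * b))) := Real.one_lt_exp_iff.2 (by nlinarith [not_le.1 hc])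
    have h5 : (1 - Real.exp (-(a * (2 * b)))) ^ 3 < 0 := by
      have := pow_pos (sub_pos.2 h4) 3
      nlinarith
    nlinarith [sq_nonneg ((1 - Real.exp (-(a * (φ 3 - 3 * φ 1 + 2 * φ 0)))) -
      3 * (1 - Real.exp (-(a * (2 * b)))))]
  · have : ∀ k : ℕ, φ k = b * (k : ℝ) ^ 2 + (φ 1 - φ 0 - b) * k + φ 0 ∧
        φ (k + 1) = b * ((k + 1 : ℕ) : ℝ) ^ 2 + (φ 1 - φ 0 - b) * (k + 1 : ℕ) + φ 0 ∧
        φ (k + 2) = b * ((k + 2 : ℕ) : ℝ) ^ 2 + (φ 1 - φ 0 - b) * (k + 2 : ℕ) + φ 0 := by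
      intro k
      induction k with
      | zero =>
        refine ⟨by simp, by push_cast; ring, ?_⟩
        have e : φ (0 + 2) = φ 2 := rfl
        rw [e]
        push_cast
        linarith
      | succ k ih =>
        obtain ⟨i1, i2, i3⟩ := ih
        refine ⟨i2, i3, ?_⟩
        have := T k
        have e : φ (k + 1 + 2) = φ (k + 3) := rfl
        rw [e]
        push_cast at i1 i2 i3 ⊢
        linarith
    exact fun k => (this k).1

lemma not_quad {p : ℝ} (hp : 2 < p) :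
    ¬ ∃ b c d : ℝ, 0 ≤ b ∧ ∀ k : ℕ, (k : ℝ) ^ p = b * (k : ℝ) ^ 2 + c * k + d := by
  rintro ⟨b, c, d, -, h⟩
  have h0 := h 0
  have h1 := h 1
  have h2 := h 2
  have h4 := h 4
  push_cast at h0 h1 h2 h4
  rw [Real.zero_rpow (by linarith)] at h0
  rw [Real.one_rpow] at h1
  have h5 : (4 : ℝ) < 2 ^ p := by
    have := Real.rpow_lt_rpow_of_exponent_lt (x := 2) (by norm_num) hp
    rwa [Real.rpow_two, show (2 : ℝ) ^ 2 = 4 by norm_num] at this
  have h6 : (4 : ℝ) ^ p = 2 ^ p * 2 ^ p := by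
    rw [← Real.mul_rpow (by norm_num) (by norm_num)]; norm_num
  rw [h6] at h4
  set t : ℝ := 2 ^ p
  nlinarith

/-- **Rapid decay criterion and threshold for `exp (-a k^p)`.** -/
theorem result :
    (∀ γ : ℕ → ℝ, (∀ k, 0 < γ k) → (∀ k, 220 * (γ k * γ (k + 2)) ≤ γ (k + 1) ^ 2) → IsCZDS γ) ∧
    (∀ p a : ℝ, 2 ≤ p → Real.log 220 ≤ a * (2 ^ p - 2) →
      IsCZDS fun k => Real.exp (-(a * (k : ℝ) ^ p))) ∧
    (∀ p a : ℝ, 3 ≤ p → 1 ≤ a → IsCZDS fun k => Real.exp (-(a * (k : ℝ) ^ p))) ∧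
    (∀ φ : ℕ → ℝ,
      (∀ ε > 0, ∃ a, 0 < a ∧ a < ε ∧ IsMultiplier fun k => Real.exp (-(a * φ k))) →
      ∃ b c d : ℝ, 0 ≤ b ∧ ∀ k : ℕ, φ k = b * (k : ℝ) ^ 2 + c * k + d) ∧
    (∀ p : ℝ, 2 < p → ∃ a₀ > 0, ∀ a : ℝ, 0 < a → a < a₀ →
      ¬ IsMultiplier (fun k => Real.exp (-(a * (k : ℝ) ^ p))) ∧
      ¬ IsCZDS (fun k => Real.exp (-(a * (k : ℝ) ^ p)))) := by
  refine ⟨czds_of, fun p a => exp_czds, fun p a hp ha => exp_czds (by linarith) ?_,
    fun φ => classify, fun p hp => ?_⟩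
  · have h2 : (8 : ℝ) ≤ 2 ^ p := by
      have := Real.rpow_le_rpow_of_exponent_le (x := 2) (by norm_num) hp
      rwa [show (3 : ℝ) = ((3 : ℕ) : ℝ) by norm_num, Real.rpow_natCast,
        show (2 : ℝ) ^ 3 = 8 by norm_num] at this
    have := log220
    nlinarith
  · by_contra hc
    push Not at hc
    refine not_quad hp (classify fun ε hε => ?_)
    obtain ⟨a, h1, h2, h3⟩ := hc ε hε
    refine ⟨a, h1, h2, ?_⟩
    by_contra h4
    have h5 := h3 h4
    refine h4 fun f hf hz => ⟨fun h6 => hf ?_, by have := h5 f; omega⟩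
    ext k
    have := act_coeff (fun k => Real.exp (-(a * (k : ℝ) ^ p))) f k
    rw [h6] at this
    simpa [(Real.exp_pos _).ne'] using this.symm

end Pool.Agent.Results.MP_561634_an.RapidDecay
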